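import Mathlib

/-!
# Uniqueness of irreducible exact-splittings of permutation classes

An infinite permutation class with two different irreducible exact-splittings.
-/

namespace Pool.Agent.Results.MP_673260_co.TwoSplittings

/-- Finite permutations: a length `n` and a bijection of `Fin n`. -/
abbrev P := (n : ℕ) × Equiv.Perm (Fin n)

/-- `f` picks out entries of `π` that are order-isomorphic to `σ`. -/
def Emb (σ π : P) (f : Fin σ.1 ↪o Fin π.1) : Prop :=
  ∀ i j, σ.2 i < σ.2 j ↔ π.2 (f i) < π.2 (f j)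

/-- Pattern containment. -/
def Le (σ π : P) : Prop := ∃ f, Emb σ π f

/-- Permutation classes: they contain the empty permutation and are closed downward. -/
def IsClass (C : Set P) : Prop :=
  (⟨0, 1⟩ : P) ∈ C ∧ ∀ σ π, Le σ π → π ∈ C → σ ∈ C

/-- The merge of `A` and `B`: the entries of `π` can be coloured with two colours such that the
entries of one colour are order-isomorphic to an element of `A` and those of the other colour to
an element of `B`. -/
def merge (A B : Set P) : Set P :=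
  {π | ∃ σ ∈ A, ∃ τ ∈ B, ∃ (f : Fin σ.1 ↪o Fin π.1) (g : Fin τ.1 ↪o Fin π.1),
    Emb σ π f ∧ Emb τ π g ∧ IsCompl (Set.range f) (Set.range g)}

/-- `C = A ⊙ B` is an exact split of `C`. -/
def IsExactSplit (C A B : Set P) : Prop :=
  IsClass A ∧ IsClass B ∧ A ⊂ C ∧ B ⊂ C ∧ C = merge A B

/-- `C` is exact-splittable. -/
def ExactSplittable (C : Set P) : Prop := ∃ A B, IsExactSplit C A B

/-- `IES C S`: the set of classes `S` is an irreducible exact-splitting of `C`. -/
inductive IES : Set P → Set (Set P) → Prop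
  | leaf (C : Set P) : ¬ ExactSplittable C → IES C {C}
  | node (C A B : Set P) (S T : Set (Set P)) :
      IsExactSplit C A B → IES A S → IES B T → IES C (S ∪ T)

/-! ### Basic lemmas -/

lemma factor {ρ' ρ π : P} {h' : Fin ρ'.1 ↪o Fin π.1} {h : Fin ρ.1 ↪o Fin π.1}
    (e' : Emb ρ' π h') (e : Emb ρ π h) (hr : Set.range h' ⊆ Set.range h) :
    ∃ k : Fin ρ'.1 ↪o Fin ρ.1, Emb ρ' ρ k ∧ ∀ i, h (k i) = h' i := by
  have hk : ∀ i, ∃ j, h j = h' i := fun i => hr ⟨i, rfl⟩
  choose k hk using hk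
  have hle : ∀ i j, k i ≤ k j ↔ i ≤ j := by
    intro i j
    rw [← h.le_iff_le, hk, hk, h'.le_iff_le]
  refine ⟨OrderEmbedding.ofMapLEIff k hle, ?_, hk⟩
  intro i j
  rw [e' i j, e, OrderEmbedding.coe_ofMapLEIff, hk, hk]

lemma std (π : P) (S : Finset (Fin π.1)) :
    ∃ (ρ : P) (h : Fin ρ.1 ↪o Fin π.1), Emb ρ π h ∧ Set.range h = S ∧ ρ.1 = S.card := by
  classical
  let T : Finset (Fin π.1) := S.image π.2
  have hT : T.card = S.card := Finset.card_image_of_injective _ π.2.injective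
  let a := S.orderIsoOfFin (rfl : S.card = S.card)
  let b := T.orderIsoOfFin hT
  let m : S ≃ T :=
    { toFun := fun x => ⟨π.2 x.1, Finset.mem_image_of_mem _ x.2⟩
      invFun := fun y => ⟨π.2.symm y.1, by
        obtain ⟨x, hx, hxy⟩ := Finset.mem_image.mp y.2
        rw [← hxy, Equiv.symm_apply_apply]
        exact hx⟩
      left_inv := fun x => by simp
      right_inv := fun y => by simp }
  let ρ : Equiv.Perm (Fin S.card) := (a.toEquiv.trans m).trans b.symm.toEquiv
  refine ⟨⟨S.card, ρ⟩, S.orderEmbOfFin rfl, ?_, ?_, rfl⟩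
  · intro i j
    show b.symm (m (a i)) < b.symm (m (a j)) ↔ _
    rw [b.symm.lt_iff_lt]
    rfl
  · exact Finset.range_orderEmbOfFin S rfl

lemma eq_of_range_univ {σ π : P} {f : Fin σ.1 ↪o Fin π.1} (e : Emb σ π f)
    (hf : Set.range f = Set.univ) : σ = π := by
  obtain ⟨n, σ⟩ := σ
  obtain ⟨m, π⟩ := π
  have hsurj : Function.Surjective f := Set.range_eq_univ.mp hf
  have hcard : n = m := by
    have := Fintype.card_of_bijective ⟨f.injective, hsurj⟩
    simpa using this
  subst hcard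
  have hid : ∀ i, f i = i := by
    intro i
    have : f = (OrderIso.refl (Fin n)).toOrderEmbedding := by
      ext i
      have h1 : (RelIso.ofSurjective f hsurj : Fin n ≃o Fin n) = OrderIso.refl _ :=
        Subsingleton.elim _ _
      have h2 := congrArg (fun g : Fin n ≃o Fin n => (g i).val) h1
      exact h2
    rw [this]; rfl
  have hlt : ∀ i j, σ i < σ j ↔ π i < π j := by
    intro i j
    have := e i j
    rw [hid, hid] at this
    exact this
  have hσπ : σ = π := by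
    have hmono : ∀ i j, (σ.symm.trans π) i < (σ.symm.trans π) j ↔ i < j := by
      intro i j
      rw [Equiv.trans_apply, Equiv.trans_apply, ← hlt, Equiv.apply_symm_apply,
        Equiv.apply_symm_apply]
    have hle : ∀ {i j : Fin n}, (σ.symm.trans π) i ≤ (σ.symm.trans π) j ↔ i ≤ j := by
      intro i j
      rw [← not_lt, ← not_lt, hmono]
    let g : Fin n ≃o Fin n := ⟨σ.symm.trans π, hle⟩
    have h1 : g = OrderIso.refl _ := Subsingleton.elim _ _
    ext i
    have h2 := congrArg (fun g : Fin n ≃o Fin n => (g (σ i)).val) h1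
    have h3 : (π (σ.symm (σ i))).val = (σ i).val := h2
    rw [Equiv.symm_apply_apply] at h3
    exact h3.symm
  rw [hσπ]

lemma card_add {σ τ π : P} {f : Fin σ.1 ↪o Fin π.1} {g : Fin τ.1 ↪o Fin π.1}
    (h : IsCompl (Set.range f) (Set.range g)) : σ.1 + τ.1 = π.1 := by
  have h1 : (Set.range f).ncard = σ.1 := by
    rw [← Set.image_univ, Set.ncard_image_of_injective _ f.injective, Set.ncard_univ, Nat.card_fin]
  have h2 : (Set.range g).ncard = τ.1 := by
    rw [← Set.image_univ, Set.ncard_image_of_injective _ g.injective, Set.ncard_univ, Nat.card_fin]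
  have h3 : (Set.range f ∪ Set.range g).ncard = π.1 := by
    have h4 : Set.range f ∪ Set.range g = Set.univ := codisjoint_iff.mp h.codisjoint
    rw [h4, Set.ncard_univ, Nat.card_fin]
  rw [← h3, Set.ncard_union_eq h.disjoint, h1, h2]

lemma le_card {σ π : P} (h : Le σ π) : σ.1 ≤ π.1 := by
  obtain ⟨f, _⟩ := h
  have := Fintype.card_le_of_injective f f.injective
  simpa using this

lemma merge_isClass {A B : Set P} (hA : IsClass A) (hB : IsClass B) : IsClass (merge A B) := by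
  classical
  constructor
  · refine ⟨⟨0, 1⟩, hA.1, ⟨0, 1⟩, hB.1, (OrderIso.refl _).toOrderEmbedding,
      (OrderIso.refl _).toOrderEmbedding, fun i => i.elim0, fun i => i.elim0, ?_⟩
    exact ⟨Set.disjoint_left.mpr (fun x => x.elim0),
      codisjoint_iff.mpr (by ext x; exact x.elim0)⟩
  · rintro σ π ⟨f, hf⟩ ⟨α, hα, β, hβ, a, b, ha, hb, hc⟩
    let S : Finset (Fin σ.1) := Finset.univ.filter (fun i => f i ∈ Set.range a)
    obtain ⟨ρ, h, hρ, hrS, _⟩ := std σ S
    obtain ⟨ρ', h', hρ', hrS', _⟩ := std σ Sᶜ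
    have hcomp : ∀ {ρ : P} {h : Fin ρ.1 ↪o Fin σ.1}, Emb ρ σ h → Emb ρ π (h.trans f) := by
      intro ρ h hρ i j
      rw [hρ i j, hf]; rfl
    have h1 : Le ρ α := by
      obtain ⟨k, hk, _⟩ := factor (hcomp hρ) ha (by
        rintro _ ⟨i, rfl⟩
        have : h i ∈ (S : Set (Fin σ.1)) := by rw [← hrS]; exact ⟨i, rfl⟩
        have := Finset.mem_coe.mp this
        simp only [S, Finset.mem_filter, Finset.mem_univ, true_and] at this
        exact this)
      exact ⟨k, hk⟩
    have h2 : Le ρ' β := by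
      obtain ⟨k, hk, _⟩ := factor (hcomp hρ') hb (by
        rintro _ ⟨i, rfl⟩
        have : h' i ∈ ((Sᶜ : Finset (Fin σ.1)) : Set (Fin σ.1)) := by rw [← hrS']; exact ⟨i, rfl⟩
        have := Finset.mem_coe.mp this
        simp only [S, Finset.mem_compl, Finset.mem_filter, Finset.mem_univ, true_and] at this
        rw [← hc.compl_eq]
        exact this)
      exact ⟨k, hk⟩
    refine ⟨ρ, hA.2 _ _ h1 hα, ρ', hB.2 _ _ h2 hβ, h, h', hρ, hρ', ?_⟩
    rw [hrS, hrS', Finset.coe_compl]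
    exact isCompl_compl

/-- Building elements of a merge from a set of positions. -/
lemma mem_merge_of {A B : Set P} {π : P} (S : Finset (Fin π.1))
    (hA : ∀ (ρ : P) (h : Fin ρ.1 ↪o Fin π.1), Emb ρ π h → Set.range h = S → ρ ∈ A)
    (hB : ∀ (ρ : P) (h : Fin ρ.1 ↪o Fin π.1), Emb ρ π h → Set.range h = (S : Set (Fin π.1))ᶜ →
      ρ ∈ B) : π ∈ merge A B := by
  classical
  obtain ⟨ρ, h, hρ, hrS, _⟩ := std π S
  obtain ⟨ρ', h', hρ', hrS', _⟩ := std π Sᶜ
  rw [Finset.coe_compl] at hrS'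
  refine ⟨ρ, hA _ _ hρ hrS, ρ', hB _ _ hρ' hrS', h, h', hρ, hρ', ?_⟩
  rw [hrS, hrS']
  exact isCompl_compl

/-! ### Trivial splits -/

lemma eq_empty_perm (σ : P) (h : σ.1 = 0) : σ = ⟨0, 1⟩ := by
  obtain ⟨n, σ⟩ := σ
  simp only at h
  subst h
  congr 1
  exact Subsingleton.elim _ _

lemma eq_one_perm (σ : P) (h : σ.1 = 1) : σ = ⟨1, 1⟩ := by
  obtain ⟨n, σ⟩ := σ
  simp only at h
  subst h
  congr 1
  exact Subsingleton.elim _ _

lemma one_le (σ : P) (h : 0 < σ.1) : Le ⟨1, 1⟩ σ := by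
  refine ⟨OrderEmbedding.ofMapLEIff (fun _ => ⟨0, h⟩) (by
    intro i j
    have : i = j := Subsingleton.elim _ _
    subst this
    simp), ?_⟩
  intro i j
  have : i = j := Subsingleton.elim _ _
  subst this
  simp

lemma merge_empty {A B : Set P} (hA : IsClass A) (hB : IsClass B)
    (h : (⟨1, 1⟩ : P) ∉ B) : merge A B = A := by
  have hB0 : ∀ τ ∈ B, τ.1 = 0 := by
    intro τ hτ
    by_contra hne
    exact h (hB.2 _ _ (one_le τ (Nat.pos_of_ne_zero hne)) hτ)
  ext π
  constructor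
  · rintro ⟨σ, hσ, τ, hτ, f, g, hf, hg, hc⟩
    have h0 := hB0 τ hτ
    have hrg : Set.range g = ∅ := by
      rw [Set.range_eq_empty_iff, h0]
      infer_instance
    have hrf : Set.range f = Set.univ := by
      have h4 : Set.range f ∪ Set.range g = Set.univ := codisjoint_iff.mp hc.codisjoint
      rwa [hrg, Set.union_empty] at h4
    rw [← eq_of_range_univ hf hrf]
    exact hσ
  · intro hπ
    refine ⟨π, hπ, ⟨0, 1⟩, hB.1, (OrderIso.refl _).toOrderEmbedding,
      OrderEmbedding.ofMapLEIff (fun i => i.elim0) (fun i => i.elim0), ?_, fun i => i.elim0, ?_⟩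
    · intro i j; rfl
    · have h1 : Set.range ((OrderIso.refl (Fin π.1)).toOrderEmbedding) = Set.univ := by
        ext x; simp
      have h2 : Set.range (OrderEmbedding.ofMapLEIff (fun i : Fin 0 => (i.elim0 : Fin π.1))
          (fun i => i.elim0)) = ∅ := by
        ext x
        simp only [Set.mem_range, Set.mem_empty_iff_false, iff_false]
        rintro ⟨i, _⟩
        exact i.elim0
      rw [h1]
      erw [h2]
      exact isCompl_top_bot

lemma merge_comm (A B : Set P) : merge A B = merge B A := by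
  ext π
  constructor
  · rintro ⟨σ, hσ, τ, hτ, f, g, hf, hg, hc⟩
    exact ⟨τ, hτ, σ, hσ, g, f, hg, hf, hc.symm⟩
  · rintro ⟨σ, hσ, τ, hτ, f, g, hf, hg, hc⟩
    exact ⟨τ, hτ, σ, hσ, g, f, hg, hf, hc.symm⟩

/-- In an exact split both parts contain the permutation of length one. -/
lemma one_mem {C A B : Set P} (h : IsExactSplit C A B) :
    (⟨1, 1⟩ : P) ∈ A ∧ (⟨1, 1⟩ : P) ∈ B := by
  obtain ⟨hA, hB, hAC, hBC, hC⟩ := h
  constructor
  · by_contra h1
    rw [merge_comm, merge_empty hB hA h1] at hC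
    exact hBC.ne hC.symm
  · by_contra h1
    rw [merge_empty hA hB h1] at hC
    exact hAC.ne hC.symm

/-- If both parts contain the permutation of length one, every permutation of length two is in the
merge. -/
lemma two_mem {A B : Set P} (hA : (⟨1, 1⟩ : P) ∈ A) (hB : (⟨1, 1⟩ : P) ∈ B)
    (π : Equiv.Perm (Fin 2)) : (⟨2, π⟩ : P) ∈ merge A B := by
  classical
  have hlen : ∀ (ρ : P) (h : Fin ρ.1 ↪o Fin 2) (x : Fin 2), Set.range h = {x} → ρ = ⟨1, 1⟩ := by
    intro ρ h x hx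
    apply eq_one_perm
    have h1 : (Set.range h).ncard = ρ.1 := by
      rw [← Set.image_univ, Set.ncard_image_of_injective _ h.injective, Set.ncard_univ,
        Nat.card_fin]
    rw [← h1, hx, Set.ncard_singleton]
  apply mem_merge_of (π := ⟨2, π⟩) {(0 : Fin 2)}
  · intro ρ h _ hr
    rw [hlen ρ h 0 (by rw [hr]; simp)]
    exact hA
  · intro ρ h _ hr
    rw [hlen ρ h 1 (by
      rw [hr]
      ext x
      fin_cases x <;> simp)]
    exact hB

/-! ### The classes -/

/-- Increasing permutations. -/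
def Inc (σ : P) : Prop := ∀ i j, i < j → σ.2 i < σ.2 j

/-- Decreasing permutations. -/
def Dec (σ : P) : Prop := ∀ i j, i < j → σ.2 j < σ.2 i

lemma inc_of_le {σ π : P} (h : Le σ π) (hπ : Inc π) : Inc σ := by
  obtain ⟨f, hf⟩ := h
  intro i j hij
  rw [hf]
  exact hπ _ _ (f.lt_iff_lt.mpr hij)

lemma dec_of_le {σ π : P} (h : Le σ π) (hπ : Dec π) : Dec σ := by
  obtain ⟨f, hf⟩ := h
  intro i j hij
  rw [hf]
  exact hπ _ _ (f.lt_iff_lt.mpr hij)

def K1 : Set P := {σ | σ.1 ≤ 1}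
def I2 : Set P := {σ | σ.1 ≤ 2 ∧ Inc σ}
def D2 : Set P := {σ | σ.1 ≤ 2 ∧ Dec σ}
def G4 : Set P := {σ | σ.1 ≤ 3 ∧ (σ.1 = 3 → ¬ Inc σ ∧ ¬ Dec σ)}
def II : Set P := {σ | Inc σ}
def C5 : Set P := {σ | σ.1 ≤ 5 ∧ (σ.1 = 5 → ¬ Inc σ ∧ ¬ Dec σ)}

lemma inc_small (σ : P) (h : σ.1 ≤ 1) : Inc σ := by
  intro i j hij
  have := i.isLt; have := j.isLt
  have : i.val < j.val := hij
  omega

lemma dec_small (σ : P) (h : σ.1 ≤ 1) : Dec σ := by
  intro i j hij
  have := i.isLt; have := j.isLt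
  have : i.val < j.val := hij
  omega

lemma eq_of_le_card {σ π : P} (h : Le σ π) (hc : σ.1 = π.1) : σ = π := by
  obtain ⟨f, hf⟩ := h
  apply eq_of_range_univ hf
  rw [Set.range_eq_univ]
  have : Function.Bijective f := by
    rw [Fintype.bijective_iff_injective_and_card]
    exact ⟨f.injective, by simpa using hc⟩
  exact this.surjective

lemma K1_class : IsClass K1 :=
  ⟨Nat.zero_le _, fun _ _ h hπ => (le_card h).trans hπ⟩

lemma I2_class : IsClass I2 :=
  ⟨⟨Nat.zero_le _, fun i => i.elim0⟩, fun _ _ h hπ => ⟨(le_card h).trans hπ.1, inc_of_le h hπ.2⟩⟩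

lemma D2_class : IsClass D2 :=
  ⟨⟨Nat.zero_le _, fun i => i.elim0⟩, fun _ _ h hπ => ⟨(le_card h).trans hπ.1, dec_of_le h hπ.2⟩⟩

lemma II_class : IsClass II :=
  ⟨fun i => i.elim0, fun _ _ h hπ => inc_of_le h hπ⟩

lemma G4_class : IsClass G4 := by
  refine ⟨⟨Nat.zero_le _, fun h => by simp at h⟩, ?_⟩
  intro σ π h hπ
  refine ⟨(le_card h).trans hπ.1, fun h3 => ?_⟩
  have h4 : π.1 = 3 := by
    have := le_card h
    have := hπ.1
    omega
  have : σ = π := eq_of_le_card h (h3.trans h4.symm)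
  rw [this]
  exact hπ.2 h4

/-! ### Non-splittability -/

lemma K1_irr : ¬ ExactSplittable K1 := by
  rintro ⟨A, B, h⟩
  obtain ⟨h1, h2⟩ := one_mem h
  have h3 := two_mem h1 h2 1
  rw [← h.2.2.2.2] at h3
  have : (2 : ℕ) ≤ 1 := h3
  omega

lemma inc_id2 : Inc ⟨2, 1⟩ := by
  intro i j h; exact h

lemma dec_swap2 : Dec ⟨2, Equiv.swap 0 1⟩ := by
  unfold Dec; decide

lemma not_inc_swap2 : ¬ Inc ⟨2, Equiv.swap 0 1⟩ := by
  intro h
  have := h 0 1 (by decide)
  revert this
  decide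

lemma not_dec_id2 : ¬ Dec ⟨2, 1⟩ := by
  intro h
  have := h 0 1 (by decide)
  revert this
  decide

lemma I2_irr : ¬ ExactSplittable I2 := by
  rintro ⟨A, B, h⟩
  obtain ⟨h1, h2⟩ := one_mem h
  have h3 := two_mem h1 h2 (Equiv.swap 0 1)
  rw [← h.2.2.2.2] at h3
  exact not_inc_swap2 h3.2

lemma II_irr : ¬ ExactSplittable II := by
  rintro ⟨A, B, h⟩
  obtain ⟨h1, h2⟩ := one_mem h
  have h3 := two_mem h1 h2 (Equiv.swap 0 1)
  rw [← h.2.2.2.2] at h3
  exact not_inc_swap2 h3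

lemma D2_irr : ¬ ExactSplittable D2 := by
  rintro ⟨A, B, h⟩
  obtain ⟨h1, h2⟩ := one_mem h
  have h3 := two_mem h1 h2 1
  rw [← h.2.2.2.2] at h3
  exact not_dec_id2 h3.2

lemma two_cases (σ : P) (h : σ.1 = 2) : σ = ⟨2, 1⟩ ∨ σ = ⟨2, Equiv.swap 0 1⟩ := by
  obtain ⟨n, σ⟩ := σ
  simp only at h
  subst h
  have : ∀ σ : Equiv.Perm (Fin 2), σ = 1 ∨ σ = Equiv.swap 0 1 := by decide
  rcases this σ with rfl | rfl
  · exact Or.inl rfl
  · exact Or.inr rfl

lemma le_two (σ : P) (h : 2 ≤ σ.1) : ∃ ρ, Le ρ σ ∧ ρ.1 = 2 := by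
  obtain ⟨ρ, f, hf, _, hc⟩ := std σ {(⟨0, by omega⟩ : Fin σ.1), ⟨1, by omega⟩}
  refine ⟨ρ, ⟨f, hf⟩, ?_⟩
  rw [hc, Finset.card_pair]
  intro h
  simp at h

lemma ncard_range {ρ π : P} (h : Fin ρ.1 ↪o Fin π.1) : (Set.range h).ncard = ρ.1 := by
  rw [← Set.image_univ, Set.ncard_image_of_injective _ h.injective, Set.ncard_univ, Nat.card_fin]

/-- If `12 ∈ A` and `1 ∈ B` then `123 ∈ A ⊙ B`; similarly for `21` and `321`. -/
lemma three_mem {A B : Set P} (hA : ∃ ρ ∈ A, ρ.1 = 2) (hB : (⟨1, 1⟩ : P) ∈ B) :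
    ∃ π ∈ merge A B, π.1 = 3 ∧ (Inc π ∨ Dec π) := by
  classical
  obtain ⟨ρ, hρ, hρ2⟩ := hA
  have hBx : ∀ (π : P) (ρ : P) (h : Fin ρ.1 ↪o Fin π.1) (x : Fin π.1), Set.range h = {x} →
      ρ ∈ B := by
    intro π ρ h x hx
    have : ρ = ⟨1, 1⟩ := by
      apply eq_one_perm
      rw [← ncard_range h, hx, Set.ncard_singleton]
    rw [this]; exact hB
  rcases two_cases ρ hρ2 with rfl | rfl
  · refine ⟨⟨3, 1⟩, ?_, rfl, Or.inl (fun i j h => h)⟩
    apply mem_merge_of (π := ⟨3, 1⟩) {(0 : Fin 3), 1}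
    · intro ρ h e hr
      have hc : ρ.1 = 2 := by
        rw [← ncard_range h, hr]; simp
      rcases two_cases ρ hc with rfl | rfl
      · exact hρ
      · exact absurd (inc_of_le ⟨h, e⟩ (fun i j h => h)) not_inc_swap2
    · intro ρ h e hr
      apply hBx _ ρ h (2 : Fin 3)
      rw [hr]
      ext x
      fin_cases x <;> simp
  · refine ⟨⟨3, Equiv.swap 0 2⟩, ?_, rfl, Or.inr (by unfold Dec; decide)⟩
    apply mem_merge_of (π := ⟨3, Equiv.swap 0 2⟩) {(0 : Fin 3), 1}
    · intro ρ h e hr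
      have hc : ρ.1 = 2 := by
        rw [← ncard_range h, hr]; simp
      rcases two_cases ρ hc with rfl | rfl
      · exact absurd (dec_of_le ⟨h, e⟩ (by unfold Dec; decide)) not_dec_id2
      · exact hρ
    · intro ρ h e hr
      apply hBx _ ρ h (2 : Fin 3)
      rw [hr]
      ext x
      fin_cases x <;> simp

lemma G4_irr : ¬ ExactSplittable G4 := by
  rintro ⟨A, B, h⟩
  obtain ⟨h1, h2⟩ := one_mem h
  obtain ⟨hA, hB, _, _, hC⟩ := h
  have hG : (⟨3, Equiv.swap 0 1⟩ : P) ∈ G4 := by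
    refine ⟨le_refl _, fun _ => ⟨?_, ?_⟩⟩
    · unfold Inc; decide
    · unfold Dec; decide
  rw [hC] at hG
  obtain ⟨σ, hσ, τ, hτ, f, g, _, _, hc⟩ := hG
  have hsum := card_add hc
  simp only at hsum
  have hno : ∀ π ∈ merge A B, ¬ (π.1 = 3 ∧ (Inc π ∨ Dec π)) := by
    rintro π hπ ⟨h3, h4⟩
    rw [← hC] at hπ
    have := hπ.2 h3
    tauto
  rcases Nat.lt_or_ge σ.1 2 with h3 | h3
  · have h4 : 2 ≤ τ.1 := by omega
    obtain ⟨ρ, hρ, hρ2⟩ := le_two τ h4
    obtain ⟨π, hπ, h5⟩ := three_mem ⟨ρ, hB.2 _ _ hρ hτ, hρ2⟩ h1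
    rw [merge_comm] at hπ
    exact hno π hπ h5
  · obtain ⟨ρ, hρ, hρ2⟩ := le_two σ h3
    obtain ⟨π, hπ, h5⟩ := three_mem ⟨ρ, hA.2 _ _ hρ hσ, hρ2⟩ h2
    exact hno π hπ h5

/-! ### The finite class -/

/-- The entries of `π` in `S` are increasing. -/
def IncOn (π : P) (S : Finset (Fin π.1)) : Prop := ∀ i ∈ S, ∀ j ∈ S, i < j → π.2 i < π.2 j

def DecOn (π : P) (S : Finset (Fin π.1)) : Prop := ∀ i ∈ S, ∀ j ∈ S, i < j → π.2 j < π.2 i

lemma inc_part {π ρ : P} {h : Fin ρ.1 ↪o Fin π.1} {S : Finset (Fin π.1)} (e : Emb ρ π h)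
    (hr : Set.range h ⊆ S) (hS : IncOn π S) : Inc ρ := by
  intro i j hij
  rw [e]
  exact hS _ (hr ⟨i, rfl⟩) _ (hr ⟨j, rfl⟩) (h.lt_iff_lt.mpr hij)

lemma dec_part {π ρ : P} {h : Fin ρ.1 ↪o Fin π.1} {S : Finset (Fin π.1)} (e : Emb ρ π h)
    (hr : Set.range h ⊆ S) (hS : DecOn π S) : Dec ρ := by
  intro i j hij
  rw [e]
  exact hS _ (hr ⟨i, rfl⟩) _ (hr ⟨j, rfl⟩) (h.lt_iff_lt.mpr hij)

/-- Building elements of a triple merge from two disjoint sets of positions. -/
lemma mem_merge3_of {A B C : Set P} {π : P} (S T : Finset (Fin π.1)) (hST : Disjoint S T)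
    (hA : ∀ (ρ : P) (h : Fin ρ.1 ↪o Fin π.1), Emb ρ π h →
      Set.range h = ((S ∪ T : Finset (Fin π.1)) : Set (Fin π.1))ᶜ → ρ ∈ A)
    (hB : ∀ (ρ : P) (h : Fin ρ.1 ↪o Fin π.1), Emb ρ π h → Set.range h = S → ρ ∈ B)
    (hC : ∀ (ρ : P) (h : Fin ρ.1 ↪o Fin π.1), Emb ρ π h → Set.range h = T → ρ ∈ C) :
    π ∈ merge A (merge B C) := by
  classical
  rw [merge_comm]
  apply mem_merge_of (S ∪ T)
  · intro ρ h e hr
    let S' : Finset (Fin ρ.1) := Finset.univ.filter (fun i => h i ∈ S)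
    apply mem_merge_of S'
    · intro ρ' h' e' hr'
      apply hB ρ' (h'.trans h)
      · intro i j; rw [e' i j, e]; rfl
      · ext x
        constructor
        · rintro ⟨i, rfl⟩
          have : h' i ∈ (S' : Set (Fin ρ.1)) := by rw [← hr']; exact ⟨i, rfl⟩
          have := Finset.mem_coe.mp this
          simp only [S', Finset.mem_filter, Finset.mem_univ, true_and] at this
          exact this
        · intro hx
          have : x ∈ Set.range h := by
            rw [hr]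
            exact Finset.mem_coe.mpr (Finset.mem_union_left _ hx)
          obtain ⟨i, rfl⟩ := this
          have : i ∈ Set.range h' := by
            rw [hr']
            simp only [S', Finset.coe_filter, Finset.mem_univ, true_and]
            exact hx
          obtain ⟨j, rfl⟩ := this
          exact ⟨j, rfl⟩
    · intro ρ' h' e' hr'
      apply hC ρ' (h'.trans h)
      · intro i j; rw [e' i j, e]; rfl
      · ext x
        constructor
        · rintro ⟨i, rfl⟩
          have h1 : h' i ∈ (S' : Set (Fin ρ.1))ᶜ := by rw [← hr']; exact ⟨i, rfl⟩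
          have h2 : h (h' i) ∉ S := by
            intro h3
            apply h1
            simp only [S', Finset.coe_filter, Finset.mem_univ, true_and]
            exact h3
          have h3 : h (h' i) ∈ ((S ∪ T : Finset (Fin π.1)) : Set (Fin π.1)) := by
            rw [← hr]; exact ⟨_, rfl⟩
          rcases Finset.mem_union.mp (Finset.mem_coe.mp h3) with h4 | h4
          · exact absurd h4 h2
          · exact h4
        · intro hx
          have h1 : x ∈ Set.range h := by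
            rw [hr]
            exact Finset.mem_coe.mpr (Finset.mem_union_right _ hx)
          obtain ⟨i, rfl⟩ := h1
          have h2 : i ∈ Set.range h' := by
            rw [hr']
            intro h3
            simp only [S', Finset.coe_filter, Finset.mem_univ, true_and] at h3
            exact Finset.disjoint_left.mp hST h3 hx
          obtain ⟨j, rfl⟩ := h2
          exact ⟨j, rfl⟩
  · intro ρ h e hr
    exact hA ρ h e hr

lemma card_of_range {π ρ : P} (h : Fin ρ.1 ↪o Fin π.1) {S : Finset (Fin π.1)}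
    (hr : Set.range h = S) : ρ.1 = S.card := by
  rw [← ncard_range h, hr, Set.ncard_coe_finset]

lemma card_of_range_compl {π ρ : P} (h : Fin ρ.1 ↪o Fin π.1) {S : Finset (Fin π.1)}
    (hr : Set.range h = (S : Set (Fin π.1))ᶜ) : ρ.1 = π.1 - S.card := by
  classical
  rw [← Finset.coe_compl] at hr
  rw [card_of_range h hr, Finset.card_compl, Fintype.card_fin]

/-- A permutation of length at most five with disjoint small monotone parts covering all but one
entry. -/
lemma mem_M1 (π : P) (S T : Finset (Fin π.1)) (hST : Disjoint S T) (hS : S.card ≤ 2)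
    (hT : T.card ≤ 2) (hc : π.1 ≤ S.card + T.card + 1) (hSi : IncOn π S) (hTd : DecOn π T) :
    π ∈ merge K1 (merge I2 D2) := by
  classical
  apply mem_merge3_of S T hST
  · intro ρ h _ hr
    have := card_of_range_compl h hr
    rw [Finset.card_union_of_disjoint hST] at this
    show ρ.1 ≤ 1
    omega
  · intro ρ h e hr
    exact ⟨by rw [card_of_range h hr]; exact hS, inc_part e hr.subset hSi⟩
  · intro ρ h e hr
    exact ⟨by rw [card_of_range h hr]; exact hT, dec_part e hr.subset hTd⟩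

lemma mem_M2 (π : P) (S T : Finset (Fin π.1)) (hST : Disjoint S T) (hS : S.card ≤ 1)
    (hT : T.card ≤ 3) (hc : π.1 ≤ S.card + T.card + 1)
    (hT3 : T.card = 3 → ¬ IncOn π T ∧ ¬ DecOn π T) : π ∈ merge K1 (merge K1 G4) := by
  classical
  apply mem_merge3_of S T hST
  · intro ρ h _ hr
    have := card_of_range_compl h hr
    rw [Finset.card_union_of_disjoint hST] at this
    show ρ.1 ≤ 1
    omega
  · intro ρ h e hr
    show ρ.1 ≤ 1
    rw [card_of_range h hr]; exact hS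
  · intro ρ h e hr
    have hcr := card_of_range h hr
    refine ⟨by rw [hcr]; exact hT, fun h3 => ?_⟩
    obtain ⟨h1, h2⟩ := hT3 (hcr.symm.trans h3)
    constructor
    · intro hi
      apply h1
      intro i hi' j hj' hij
      have hi2 : i ∈ Set.range h := by rw [hr]; exact hi'
      have hj2 : j ∈ Set.range h := by rw [hr]; exact hj'
      obtain ⟨a, rfl⟩ := hi2
      obtain ⟨b, rfl⟩ := hj2
      rw [← e]
      exact hi a b (h.lt_iff_lt.mp hij)
    · intro hd
      apply h2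
      intro i hi' j hj' hij
      have hi2 : i ∈ Set.range h := by rw [hr]; exact hi'
      have hj2 : j ∈ Set.range h := by rw [hr]; exact hj'
      obtain ⟨a, rfl⟩ := hi2
      obtain ⟨b, rfl⟩ := hj2
      rw [← e]
      exact hd a b (h.lt_iff_lt.mp hij)

lemma five_pairs : ∀ π : Equiv.Perm (Fin 5),
    (∃ i j, i < j ∧ π j < π i) → (∃ i j, i < j ∧ π i < π j) →
    ∃ a b c d : Fin 5, a < b ∧ c < d ∧ π a < π b ∧ π d < π c ∧ a ≠ c ∧ a ≠ d ∧ b ≠ c ∧ b ≠ d := by
  decide +kernel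

lemma five_triple : ∀ π : Equiv.Perm (Fin 5),
    (∃ i j, i < j ∧ π j < π i) → (∃ i j, i < j ∧ π i < π j) →
    ∃ a b c : Fin 5, a < b ∧ b < c ∧ ¬ (π a < π b ∧ π b < π c) ∧ ¬ (π b < π a ∧ π c < π b) := by
  decide +kernel

lemma subset_left {A B : Set P} (hB : (⟨0, 1⟩ : P) ∈ B) : A ⊆ merge A B := by
  intro π hπ
  apply mem_merge_of (π := π) Finset.univ
  · intro ρ h e hr
    rw [Finset.coe_univ] at hr
    rw [eq_of_range_univ e hr]
    exact hπ
  · intro ρ h e hr
    have := card_of_range_compl h hr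
    rw [Finset.card_univ, Fintype.card_fin, Nat.sub_self] at this
    rw [eq_empty_perm ρ this]
    exact hB

lemma subset_right {A B : Set P} (hA : (⟨0, 1⟩ : P) ∈ A) : B ⊆ merge A B := by
  rw [merge_comm]; exact subset_left hA

lemma le_left {A B : Set P} {π : P} (h : π ∈ merge A B) :
    ∃ σ ∈ A, ∃ τ ∈ B, Le σ π ∧ Le τ π ∧ σ.1 + τ.1 = π.1 := by
  obtain ⟨σ, hσ, τ, hτ, f, g, hf, hg, hc⟩ := h
  exact ⟨σ, hσ, τ, hτ, ⟨f, hf⟩, ⟨g, hg⟩, card_add hc⟩

lemma not_both (σ : P) (h : 2 ≤ σ.1) (h1 : Inc σ) (h2 : Dec σ) : False := by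
  have a := h1 ⟨0, by omega⟩ ⟨1, by omega⟩ (by simp [Fin.lt_def])
  have b := h2 ⟨0, by omega⟩ ⟨1, by omega⟩ (by simp [Fin.lt_def])
  exact absurd a (not_lt_of_gt b)

lemma not_dec_iff (π : Equiv.Perm (Fin 5)) (h : ¬ Dec ⟨5, π⟩) : ∃ i j, i < j ∧ π i < π j := by
  unfold Dec at h
  push Not at h
  obtain ⟨i, j, hij, hle⟩ := h
  exact ⟨i, j, hij, lt_of_le_of_ne hle (fun h => hij.ne (π.injective h))⟩

lemma not_inc_iff (π : Equiv.Perm (Fin 5)) (h : ¬ Inc ⟨5, π⟩) : ∃ i j, i < j ∧ π j < π i := by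
  unfold Inc at h
  push Not at h
  obtain ⟨i, j, hij, hle⟩ := h
  exact ⟨i, j, hij, lt_of_le_of_ne hle (fun h => hij.ne (π.injective h).symm)⟩

lemma incOn_single (π : P) (a : Fin π.1) : IncOn π {a} := by
  intro i hi j hj hij
  rw [Finset.mem_singleton] at hi hj
  subst hi; subst hj
  exact absurd hij (lt_irrefl _)

lemma decOn_single (π : P) (a : Fin π.1) : DecOn π {a} := by
  intro i hi j hj hij
  rw [Finset.mem_singleton] at hi hj
  subst hi; subst hj
  exact absurd hij (lt_irrefl _)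

lemma incOn_empty (π : P) : IncOn π ∅ := fun i hi => absurd hi (Finset.notMem_empty _)
lemma decOn_empty (π : P) : DecOn π ∅ := fun i hi => absurd hi (Finset.notMem_empty _)

lemma incOn_pair (π : P) (a b : Fin π.1) (hab : a < b) (h : π.2 a < π.2 b) :
    IncOn π {a, b} := by
  intro i hi j hj hij
  rw [Finset.mem_insert, Finset.mem_singleton] at hi hj
  rcases hi with rfl | rfl <;> rcases hj with rfl | rfl
  · exact absurd hij (lt_irrefl _)
  · exact h
  · exact absurd hij (not_lt_of_gt hab)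
  · exact absurd hij (lt_irrefl _)

lemma decOn_pair (π : P) (a b : Fin π.1) (hab : a < b) (h : π.2 b < π.2 a) :
    DecOn π {a, b} := by
  intro i hi j hj hij
  rw [Finset.mem_insert, Finset.mem_singleton] at hi hj
  rcases hi with rfl | rfl <;> rcases hj with rfl | rfl
  · exact absurd hij (lt_irrefl _)
  · exact h
  · exact absurd hij (not_lt_of_gt hab)
  · exact absurd hij (lt_irrefl _)

lemma disj4 : Disjoint ({(0 : Fin 4), 1} : Finset (Fin 4)) {(2 : Fin 4)} := by decide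

lemma lt01 : (0 : Fin 4) < 1 := by decide

lemma C5_eq1 : C5 = merge K1 (merge I2 D2) := by
  apply Set.Subset.antisymm
  · rintro ⟨n, π⟩ ⟨hn, h5⟩
    simp only at hn h5
    rcases Nat.lt_or_ge n 2 with h | h
    · exact mem_M1 ⟨n, π⟩ ∅ ∅ (by simp) (by simp) (by simp) (by simp; omega)
        (incOn_empty _) (decOn_empty _)
    obtain rfl | rfl | rfl | rfl : n = 2 ∨ n = 3 ∨ n = 4 ∨ n = 5 := by omega
    · exact mem_M1 ⟨2, π⟩ {(0 : Fin 2)} ∅ (by simp) (by simp) (by simp) (by simp)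
        (incOn_single _ _) (decOn_empty _)
    · exact mem_M1 ⟨3, π⟩ {(0 : Fin 3)} {(1 : Fin 3)} (by simp) (by simp) (by simp) (by simp)
        (incOn_single _ _) (decOn_single _ _)
    · have h01 : ({(0 : Fin 4), 1} : Finset (Fin 4)).card = 2 := by decide
      rcases lt_or_gt_of_ne (fun h => absurd (π.injective h) (by decide) : π 0 ≠ π 1) with h | h
      · exact mem_M1 ⟨4, π⟩ ({(0 : Fin 4), 1} : Finset (Fin 4)) {(2 : Fin 4)}
          disj4 h01.le (by simp) (by rw [h01]; simp)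
          (incOn_pair ⟨4, π⟩ 0 1 lt01 h) (decOn_single _ _)
      · exact mem_M1 ⟨4, π⟩ {(2 : Fin 4)} ({(0 : Fin 4), 1} : Finset (Fin 4))
          disj4.symm (by simp) h01.le (by rw [h01]; simp)
          (incOn_single _ _) (decOn_pair ⟨4, π⟩ 0 1 lt01 h)
    · obtain ⟨h1, h2⟩ := h5 rfl
      obtain ⟨a, b, c, d, hab, hcd, hi, hd, n1, n2, n3, n4⟩ :=
        five_pairs π (not_inc_iff π h1) (not_dec_iff π h2)
      have c1 : ({a, b} : Finset (Fin 5)).card = 2 := Finset.card_pair hab.ne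
      have c2 : ({c, d} : Finset (Fin 5)).card = 2 := Finset.card_pair hcd.ne
      refine mem_M1 ⟨5, π⟩ ({a, b} : Finset (Fin 5)) ({c, d} : Finset (Fin 5)) ?_ c1.le c2.le
        (by rw [c1, c2]) (incOn_pair ⟨5, π⟩ a b hab hi) (decOn_pair ⟨5, π⟩ c d hcd hd)
      simp [n1.symm, n2.symm, n3.symm, n4.symm]
  · intro π hπ
    obtain ⟨σ, hσ, τ, hτ, _, hτπ, hs1⟩ := le_left hπ
    obtain ⟨σ', hσ', τ', hτ', h1, h2, hs2⟩ := le_left hτ
    have a1 : σ.1 ≤ 1 := hσ
    have a2 := hσ'.1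
    have a3 := hτ'.1
    refine ⟨by omega, fun h5 => ⟨?_, ?_⟩⟩
    · intro hi
      exact not_both τ' (by omega) (inc_of_le h2 (inc_of_le hτπ hi)) hτ'.2
    · intro hd
      exact not_both σ' (by omega) hσ'.2 (dec_of_le h1 (dec_of_le hτπ hd))

lemma C5_eq2 : C5 = merge K1 (merge K1 G4) := by
  apply Set.Subset.antisymm
  · rintro ⟨n, π⟩ ⟨hn, h5⟩
    simp only at hn h5
    rcases Nat.lt_or_ge n 2 with h | h
    · exact mem_M2 ⟨n, π⟩ ∅ ∅ (by simp) (by simp) (by simp) (by simp; omega) (by simp)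
    obtain rfl | rfl | rfl | rfl : n = 2 ∨ n = 3 ∨ n = 4 ∨ n = 5 := by omega
    · exact mem_M2 ⟨2, π⟩ {(0 : Fin 2)} ∅ (by simp) (by simp) (by simp) (by simp) (by simp)
    · exact mem_M2 ⟨3, π⟩ {(0 : Fin 3)} {(1 : Fin 3)} (by simp) (by simp) (by simp) (by simp)
        (by simp)
    · have h01 : ({(0 : Fin 4), 1} : Finset (Fin 4)).card = 2 := by decide
      exact mem_M2 ⟨4, π⟩ {(2 : Fin 4)} ({(0 : Fin 4), 1} : Finset (Fin 4))
          disj4.symm (by simp) (by rw [h01]; norm_num) (by rw [h01]; simp)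
          (by rw [h01]; intro h; omega)
    · obtain ⟨h1, h2⟩ := h5 rfl
      obtain ⟨a, b, c, hab, hbc, hi, hd⟩ :=
        five_triple π (not_inc_iff π h1) (not_dec_iff π h2)
      have c1 : ({a, b, c} : Finset (Fin 5)).card = 3 := by
        rw [Finset.card_insert_of_notMem, Finset.card_pair hbc.ne]
        simp [hab.ne, (hab.trans hbc).ne]
      obtain ⟨d, hd'⟩ : ∃ d, d ∉ ({a, b, c} : Finset (Fin 5)) := by
        by_contra hcon
        push Not at hcon
        have : ({a, b, c} : Finset (Fin 5)) = Finset.univ := by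
          ext x; simp only [Finset.mem_univ, iff_true]; exact hcon x
        rw [this] at c1
        simp at c1
      refine mem_M2 ⟨5, π⟩ ({d} : Finset (Fin 5)) ({a, b, c} : Finset (Fin 5)) ?_ (by simp) c1.le
        (by rw [c1]; simp) (fun _ => ⟨?_, ?_⟩)
      · rw [Finset.disjoint_singleton_left]; exact hd'
      · intro h
        exact hi ⟨h a (by simp) b (by simp) hab, h b (by simp) c (by simp) hbc⟩
      · intro h
        exact hd ⟨h a (by simp) b (by simp) hab, h b (by simp) c (by simp) hbc⟩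
  · intro π hπ
    obtain ⟨σ, hσ, τ, hτ, _, hτπ, hs1⟩ := le_left hπ
    obtain ⟨σ', hσ', τ', hτ', h1, h2, hs2⟩ := le_left hτ
    have a1 : σ.1 ≤ 1 := hσ
    have a2 : σ'.1 ≤ 1 := hσ'
    have a3 := hτ'.1
    refine ⟨by omega, fun h5 => ?_⟩
    obtain ⟨b1, b2⟩ := hτ'.2 (by omega)
    exact ⟨fun hi => b1 (inc_of_le h2 (inc_of_le hτπ hi)),
      fun hd => b2 (dec_of_le h2 (dec_of_le hτπ hd))⟩

/-! ### Assembling -/

lemma M1_class : IsClass (merge I2 D2) := merge_isClass I2_class D2_class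
lemma M2_class : IsClass (merge K1 G4) := merge_isClass K1_class G4_class
lemma C5_class : IsClass C5 := by rw [C5_eq1]; exact merge_isClass K1_class M1_class

lemma swap2_mem_D2 : (⟨2, Equiv.swap 0 1⟩ : P) ∈ D2 := ⟨le_refl _, dec_swap2⟩
lemma id2_mem_I2 : (⟨2, 1⟩ : P) ∈ I2 := ⟨le_refl _, inc_id2⟩

lemma two_mem_C5 (π : Equiv.Perm (Fin 2)) : (⟨2, π⟩ : P) ∈ C5 :=
  ⟨by show 2 ≤ 5; omega, fun h => by simp at h⟩

lemma five_mem : (⟨5, Equiv.swap 0 1⟩ : P) ∈ C5 := by
  refine ⟨le_refl _, fun _ => ⟨?_, ?_⟩⟩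
  · unfold Inc; decide
  · unfold Dec; decide

lemma split_M1 : IsExactSplit (merge I2 D2) I2 D2 := by
  refine ⟨I2_class, D2_class, ?_, ?_, rfl⟩
  · refine ⟨subset_left D2_class.1, fun h => ?_⟩
    exact not_inc_swap2 (h (subset_right I2_class.1 swap2_mem_D2)).2
  · refine ⟨subset_right I2_class.1, fun h => ?_⟩
    exact not_dec_id2 (h (subset_left D2_class.1 id2_mem_I2)).2

lemma split_M2 : IsExactSplit (merge K1 G4) K1 G4 := by
  refine ⟨K1_class, G4_class, ?_, ?_, rfl⟩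
  · refine ⟨subset_left G4_class.1, fun h => ?_⟩
    have h1 : (⟨2, 1⟩ : P) ∈ G4 := ⟨by show 2 ≤ 3; omega, fun h => by simp at h⟩
    have h2 : (2 : ℕ) ≤ 1 := h (subset_right K1_class.1 h1)
    omega
  · refine ⟨subset_right K1_class.1, fun h => ?_⟩
    have h1 : (⟨2, 1⟩ : P) ∈ G4 := ⟨by show 2 ≤ 3; omega, fun h => by simp at h⟩
    obtain ⟨π, hπ, h3, h4⟩ := three_mem (A := G4) (B := K1) ⟨_, h1, rfl⟩ (le_refl 1)
    rw [merge_comm] at hπ
    have := (h hπ).2 h3
    tauto

lemma split_C5_1 : IsExactSplit C5 K1 (merge I2 D2) := by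
  refine ⟨K1_class, M1_class, ?_, ?_, C5_eq1⟩
  · refine ⟨fun π hπ => ?_, fun h => ?_⟩
    · have : π.1 ≤ 1 := hπ
      exact ⟨by omega, fun h => by omega⟩
    · have h2 : (2 : ℕ) ≤ 1 := h (two_mem_C5 1)
      omega
  · refine ⟨?_, fun h => ?_⟩
    · rw [C5_eq1]; exact subset_right K1_class.1
    · obtain ⟨σ, hσ, τ, hτ, _, _, hs⟩ := le_left (h five_mem)
      have a1 := hσ.1
      have a2 := hτ.1
      simp only at hs
      omega

lemma split_C5_2 : IsExactSplit C5 K1 (merge K1 G4) := by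
  refine ⟨K1_class, M2_class, ?_, ?_, C5_eq2⟩
  · refine ⟨fun π hπ => ?_, fun h => ?_⟩
    · have : π.1 ≤ 1 := hπ
      exact ⟨by omega, fun h => by omega⟩
    · have h2 : (2 : ℕ) ≤ 1 := h (two_mem_C5 1)
      omega
  · refine ⟨?_, fun h => ?_⟩
    · rw [C5_eq2]; exact subset_right K1_class.1
    · obtain ⟨σ, hσ, τ, hτ, _, _, hs⟩ := le_left (h five_mem)
      have a1 : σ.1 ≤ 1 := hσ
      have a2 := hτ.1
      simp only at hs
      omega

lemma id_mem_II (n : ℕ) : (⟨n, 1⟩ : P) ∈ II := fun _ _ h => h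

lemma split_main : IsExactSplit (merge C5 II) C5 II := by
  refine ⟨C5_class, II_class, ?_, ?_, rfl⟩
  · refine ⟨subset_left II_class.1, fun h => ?_⟩
    have : (6 : ℕ) ≤ 5 := (h (subset_right C5_class.1 (id_mem_II 6))).1
    omega
  · refine ⟨subset_right C5_class.1, fun h => ?_⟩
    exact not_inc_swap2 (h (subset_left II_class.1 (two_mem_C5 _)))

lemma infinite_main : (merge C5 II).Infinite := by
  apply Set.Infinite.mono (subset_right C5_class.1)
  apply Set.infinite_of_injective_forall_mem (f := fun n : ℕ => (⟨n, 1⟩ : P))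
  · intro a b h
    exact congrArg Sigma.fst h
  · exact id_mem_II

/-- **Uniqueness fails for infinite classes**: there is an infinite permutation class with two
different irreducible exact-splittings. -/
theorem result : ∃ C : Set P, IsClass C ∧ C.Infinite ∧
    ∃ S T : Set (Set P), IES C S ∧ IES C T ∧ S ≠ T := by
  refine ⟨merge C5 II, merge_isClass C5_class II_class, infinite_main,
    ({K1} ∪ ({I2} ∪ {D2})) ∪ {II}, ({K1} ∪ ({K1} ∪ {G4})) ∪ {II}, ?_, ?_, ?_⟩
  · exact IES.node _ _ _ _ _ split_main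
      (IES.node _ _ _ _ _ split_C5_1 (IES.leaf _ K1_irr)
        (IES.node _ _ _ _ _ split_M1 (IES.leaf _ I2_irr) (IES.leaf _ D2_irr)))
      (IES.leaf _ II_irr)
  · exact IES.node _ _ _ _ _ split_main
      (IES.node _ _ _ _ _ split_C5_2 (IES.leaf _ K1_irr)
        (IES.node _ _ _ _ _ split_M2 (IES.leaf _ K1_irr) (IES.leaf _ G4_irr)))
      (IES.leaf _ II_irr)
  · intro h
    have h1 : I2 ∈ ({K1} ∪ ({K1} ∪ {G4}) ∪ {II} : Set (Set P)) := by
      rw [← h]
      exact Or.inl (Or.inr (Or.inl rfl))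
    rcases h1 with (h1 | (h1 | h1)) | h1
    · have h2 : (2 : ℕ) ≤ 1 := by
        have : (⟨2, 1⟩ : P) ∈ K1 := h1 ▸ id2_mem_I2
        exact this
      omega
    · have h2 : (2 : ℕ) ≤ 1 := by
        have : (⟨2, 1⟩ : P) ∈ K1 := h1 ▸ id2_mem_I2
        exact this
      omega
    · have h2 : (⟨2, Equiv.swap 0 1⟩ : P) ∈ G4 := ⟨by show 2 ≤ 3; omega, fun h => by simp at h⟩
      have h3 : G4 = I2 := h1.symm
      rw [h3] at h2
      exact not_inc_swap2 h2.2
    · have h2 : (⟨3, 1⟩ : P) ∈ II := id_mem_II 3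
      have h3 : II = I2 := h1.symm
      rw [h3] at h2
      have : (3 : ℕ) ≤ 2 := h2.1
      omega

end Pool.Agent.Results.MP_673260_co.TwoSplittings
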